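import Pool.Agent.H293.EX.Stm2

set_option autoImplicit false

/-! # EX/LT: continuity and Laplace transform of a sum over primes (helper627 for helper293) -/

namespace Pool.Agent.H627.EXLT

open MeasureTheory Filter Topology Set Complex
open DirichletCharacter (LFunction)
open Pool.Agent.Q253.LQ Pool.Agent.Q14.LQ Pool.Agent.H293.EX

/-- the kernel -/
noncomputable def kr (a v : ℝ) : ℝ := max v 0 * Real.exp (-(a * v))

theorem kr_nonneg (a v : ℝ) : 0 ≤ kr a v := mul_nonneg (le_max_right _ _) (Real.exp_pos _).le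

theorem kr_zero {a v : ℝ} (h : v ≤ 0) : kr a v = 0 := by
  unfold kr
  rw [max_eq_right h, zero_mul]

theorem kr_cont (a : ℝ) : Continuous (kr a) := by
  unfold kr
  fun_prop

theorem kr_le {a x : ℝ} (ha : 0 < a) (hx : 0 ≤ x) (v : ℝ) : kr a v ≤ 1 / a * Real.exp (x * v) := by
  have h0 : 0 ≤ 1 / a * Real.exp (x * v) := by positivity
  rcases le_total v 0 with h | h
  · rw [kr_zero h]
    exact h0
  · unfold kr
    rw [max_eq_left h]
    have h1 : a * v ≤ Real.exp (a * v) := by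
      have := Real.add_one_le_exp (a * v)
      linarith
    have h2 : v ≤ 1 / a * Real.exp (a * v) := by
      rw [one_div, inv_mul_eq_div, le_div_iff₀ ha]
      linarith
    have h3 : v * Real.exp (-(a * v)) ≤ 1 / a := by
      have h4 := mul_le_mul_of_nonneg_right h2 (Real.exp_pos (-(a * v))).le
      rw [mul_assoc, ← Real.exp_add, add_neg_cancel, Real.exp_zero, mul_one] at h4
      exact h4
    have h4 : 1 ≤ Real.exp (x * v) := Real.one_le_exp (mul_nonneg hx h)
    have h5 : 0 < 1 / a := by positivity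
    nlinarith

/-- sums with the one-sided kernel -/
noncomputable def E2 (a : ℝ) (b : ℕ → ℂ) (u : ℝ) : ℂ :=
  ∑' n : ℕ, b n * ((kr a (u - Real.log n) : ℝ) : ℂ)

variable {a : ℝ} {b : ℕ → ℂ}

theorem term_le' (ha : 0 < a) {x : ℝ} (hx : 0 ≤ x) (u : ℝ) (n : ℕ) :
    ‖b n * ((kr a (u - Real.log n) : ℝ) : ℂ)‖ ≤
      (1 / a * Real.exp (x * u)) * (‖b n‖ * Real.exp (-(x * Real.log n))) := by
  rw [norm_mul, Complex.norm_real, Real.norm_of_nonneg (kr_nonneg _ _)]
  have h1 := kr_le ha hx (u - Real.log n)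
  have h2 : Real.exp (x * (u - Real.log n)) = Real.exp (x * u) * Real.exp (-(x * Real.log n)) := by
    rw [← Real.exp_add]
    congr 1
    ring
  rw [h2] at h1
  calc ‖b n‖ * kr a (u - Real.log n) ≤
      ‖b n‖ * (1 / a * (Real.exp (x * u) * Real.exp (-(x * Real.log n)))) :=
        mul_le_mul_of_nonneg_left h1 (norm_nonneg _)
    _ = _ := by ring

theorem E2_summable (ha : 0 < a) (hb : HB b) (u : ℝ) :
    Summable (fun n : ℕ => ‖b n * ((kr a (u - Real.log n) : ℝ) : ℂ)‖) :=
  Summable.of_nonneg_of_le (fun _ => norm_nonneg _)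
    (fun n => term_le' (x := 1) ha zero_le_one u n) ((hb 1 (by norm_num)).mul_left _)

theorem E2_bound (ha : 0 < a) (hb : HB b) {x : ℝ} (hx0 : 1 / 2 < x) (u : ℝ) :
    ‖E2 a b u‖ ≤ (1 / a * ∑' n : ℕ, ‖b n‖ * Real.exp (-(x * Real.log n))) * Real.exp (x * u) := by
  have h1 := (hb x hx0).mul_left (1 / a * Real.exp (x * u))
  calc ‖E2 a b u‖ ≤ ∑' n : ℕ, ‖b n * ((kr a (u - Real.log n) : ℝ) : ℂ)‖ :=
        norm_tsum_le_tsum_norm (E2_summable ha hb u)
    _ ≤ ∑' n : ℕ, (1 / a * Real.exp (x * u)) * (‖b n‖ * Real.exp (-(x * Real.log n))) :=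
        (E2_summable ha hb u).tsum_le_tsum (fun n => term_le' ha (by linarith) u n) h1
    _ = _ := by rw [tsum_mul_left]; ring

theorem E2_cont (ha : 0 < a) (hb : HB b) : Continuous (E2 a b) := by
  rw [continuous_iff_continuousAt]
  intro u
  have h1 : ContinuousOn (E2 a b) (Iio (u + 1)) := by
    unfold E2
    refine continuousOn_tsum
      (u := fun n => (1 / a * Real.exp (1 * (u + 1))) * (‖b n‖ * Real.exp (-(1 * Real.log n))))
      (fun n => ?_) ((hb 1 (by norm_num)).mul_left _) (fun n y hy => ?_)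
    · apply Continuous.continuousOn
      exact continuous_const.mul
        (Complex.continuous_ofReal.comp ((kr_cont a).comp (by fun_prop)))
    · refine (term_le' (x := 1) ha zero_le_one y n).trans ?_
      have hy' : y < u + 1 := hy
      gcongr
  exact h1.continuousAt (Iio_mem_nhds (by linarith))

theorem base_intble' (ha : 0 < a) {z : ℂ} (hz : 0 < z.re) (v : ℝ) :
    IntegrableOn (fun u : ℝ => ((kr a (u - v) : ℝ) : ℂ) * cexp (-z * u)) (Ioi 0) := by
  have h1 : IntegrableOn (fun u : ℝ => cexp (-z * u)) (Ioi 0) :=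
    integrableOn_exp_mul_complex_Ioi (by simpa using hz) 0
  refine Integrable.mono' (h1.norm.const_mul (1 / a)) ?_ (Eventually.of_forall fun u => ?_)
  · apply Continuous.aestronglyMeasurable
    exact (Complex.continuous_ofReal.comp ((kr_cont a).comp (by fun_prop))).mul (by fun_prop)
  · rw [norm_mul, Complex.norm_real, Real.norm_of_nonneg (kr_nonneg _ _)]
    have h2 := kr_le ha (le_refl (0:ℝ)) (u - v)
    rw [zero_mul, Real.exp_zero, mul_one] at h2
    exact mul_le_mul_of_nonneg_right h2 (norm_nonneg _)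

theorem lin_exp_bd {r w : ℝ} (hr : 0 < r) : w * Real.exp (-(r * w)) ≤
    2 / r * Real.exp (-(r / 2 * w)) := by
  have h1 : r / 2 * w ≤ Real.exp (r / 2 * w) := by
    have := Real.add_one_le_exp (r / 2 * w)
    linarith
  have h2 : w ≤ 2 / r * Real.exp (r / 2 * w) := by
    rw [div_mul_eq_mul_div, le_div_iff₀ hr]
    linarith
  have h3 := mul_le_mul_of_nonneg_right h2 (Real.exp_pos (-(r * w))).le
  have h4 : 2 / r * Real.exp (r / 2 * w) * Real.exp (-(r * w)) =
      2 / r * Real.exp (-(r / 2 * w)) := by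
    rw [mul_assoc, ← Real.exp_add]
    congr 2
    ring
  rw [h4] at h3
  exact h3

theorem int_lin {c : ℂ} (hc : 0 < c.re) :
    ∫ w in Ioi (0 : ℝ), (w : ℂ) * cexp (-c * w) = 1 / c ^ 2 := by
  have hc0 : c ≠ 0 := by
    rintro rfl
    simp at hc
  have hn : ∀ w : ℝ, ‖cexp (-c * w)‖ = Real.exp (-(c.re * w)) := by
    intro w
    rw [Complex.norm_exp]
    simp
  have hint : IntegrableOn (fun w : ℝ => (w : ℂ) * cexp (-c * w)) (Ioi 0) := by
    have h1 : IntegrableOn (fun w : ℝ => 2 / c.re * Real.exp (-(c.re / 2) * w)) (Ioi 0) :=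
      (integrableOn_exp_mul_Ioi (by linarith) 0).const_mul _
    refine Integrable.mono' h1 ?_ ?_
    · apply Continuous.aestronglyMeasurable
      fun_prop
    · rw [ae_restrict_iff' measurableSet_Ioi]
      refine Eventually.of_forall fun w hw => ?_
      have hw' : 0 < w := hw
      rw [norm_mul, hn, Complex.norm_real, Real.norm_of_nonneg hw'.le]
      have h2 := lin_exp_bd (w := w) hc
      rw [neg_mul]
      exact h2
  have hder : ∀ x ∈ Ici (0 : ℝ), HasDerivAt
      (fun w : ℝ => -((w : ℂ) / c + 1 / c ^ 2) * cexp (-c * w)) ((x : ℂ) * cexp (-c * x)) x := by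
    intro x _
    have h1 : HasDerivAt (fun w : ℝ => (w : ℂ)) 1 x := Complex.ofRealCLM.hasDerivAt
    have h2 : HasDerivAt (fun w : ℝ => -((w : ℂ) / c + 1 / c ^ 2)) (-(1 / c)) x :=
      ((h1.div_const c).add_const _).neg
    have h3 : HasDerivAt (fun w : ℝ => cexp (-c * w)) (cexp (-c * x) * (-c * 1)) x :=
      (h1.const_mul (-c)).cexp
    have h4 := h2.mul h3
    have e : -(1 / c) * cexp (-c * x) + -((x : ℂ) / c + 1 / c ^ 2) * (cexp (-c * x) * (-c * 1)) =
        (x : ℂ) * cexp (-c * x) := by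
      field_simp
      ring
    rw [← e]
    exact h4
  have hlim : Tendsto (fun w : ℝ => -((w : ℂ) / c + 1 / c ^ 2) * cexp (-c * w)) atTop (𝓝 0) := by
    rw [tendsto_zero_iff_norm_tendsto_zero]
    have h1 : Tendsto (fun w : ℝ => (2 / c.re / ‖c‖ + 1 / ‖c‖ ^ 2) *
        Real.exp (-(c.re / 2 * w))) atTop (𝓝 ((2 / c.re / ‖c‖ + 1 / ‖c‖ ^ 2) * 0)) := by
      refine Tendsto.const_mul _ ?_
      refine Real.tendsto_exp_atBot.comp ?_
      refine tendsto_neg_atTop_atBot.comp ?_
      exact tendsto_id.const_mul_atTop (by linarith)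
    rw [mul_zero] at h1
    refine squeeze_zero' (Eventually.of_forall fun w => norm_nonneg _) ?_ h1
    filter_upwards [eventually_ge_atTop 0] with w hw
    rw [norm_mul, norm_neg, hn]
    have h2 : ‖(w : ℂ) / c + 1 / c ^ 2‖ ≤ w / ‖c‖ + 1 / ‖c‖ ^ 2 := by
      refine (norm_add_le _ _).trans ?_
      rw [norm_div, norm_div, norm_one, norm_pow, Complex.norm_real, Real.norm_of_nonneg hw]
    have h3 := lin_exp_bd (w := w) hc
    have h4 : Real.exp (-(c.re * w)) ≤ Real.exp (-(c.re / 2 * w)) := by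
      refine Real.exp_le_exp.2 ?_
      nlinarith
    have h5 : 0 < ‖c‖ := norm_pos_iff.2 hc0
    calc ‖(w : ℂ) / c + 1 / c ^ 2‖ * Real.exp (-(c.re * w)) ≤
        (w / ‖c‖ + 1 / ‖c‖ ^ 2) * Real.exp (-(c.re * w)) :=
          mul_le_mul_of_nonneg_right h2 (Real.exp_pos _).le
      _ = (w * Real.exp (-(c.re * w))) / ‖c‖ + 1 / ‖c‖ ^ 2 * Real.exp (-(c.re * w)) := by ring
      _ ≤ (2 / c.re * Real.exp (-(c.re / 2 * w))) / ‖c‖ +
          1 / ‖c‖ ^ 2 * Real.exp (-(c.re / 2 * w)) := by gcongr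
      _ = _ := by ring
  rw [integral_Ioi_of_hasDerivAt_of_tendsto' hder hint hlim]
  simp

theorem base_int' (ha : 0 < a) {z : ℂ} (hz : 0 < z.re) {v : ℝ} (hv : 0 ≤ v) :
    ∫ u in Ioi (0 : ℝ), ((kr a (u - v) : ℝ) : ℂ) * cexp (-z * u) =
      1 / (z + a) ^ 2 * cexp (-z * v) := by
  have h1 : ∫ u in Ioi (0 : ℝ), ((kr a (u - v) : ℝ) : ℂ) * cexp (-z * u) =
      ∫ u : ℝ, ((kr a (u - v) : ℝ) : ℂ) * cexp (-z * u) := by
    refine setIntegral_eq_integral_of_forall_compl_eq_zero fun u hu => ?_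
    have hu' : u ≤ 0 := not_lt.1 hu
    rw [kr_zero (by linarith), Complex.ofReal_zero, zero_mul]
  have h2 : ∫ u : ℝ, ((kr a (u - v) : ℝ) : ℂ) * cexp (-z * u) =
      ∫ u : ℝ, ((kr a u : ℝ) : ℂ) * cexp (-z * ((u + v : ℝ) : ℂ)) := by
    rw [← integral_add_right_eq_self (fun u : ℝ => ((kr a (u - v) : ℝ) : ℂ) * cexp (-z * u)) v]
    refine integral_congr_ae (Eventually.of_forall fun u => ?_)
    simp only [add_sub_cancel_right]
  have h3 : ∫ u : ℝ, ((kr a u : ℝ) : ℂ) * cexp (-z * ((u + v : ℝ) : ℂ)) =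
      ∫ u in Ioi (0 : ℝ), ((kr a u : ℝ) : ℂ) * cexp (-z * ((u + v : ℝ) : ℂ)) := by
    refine (setIntegral_eq_integral_of_forall_compl_eq_zero fun u hu => ?_).symm
    have hu' : u ≤ 0 := not_lt.1 hu
    rw [kr_zero hu', Complex.ofReal_zero, zero_mul]
  have h4 : ∫ u in Ioi (0 : ℝ), ((kr a u : ℝ) : ℂ) * cexp (-z * ((u + v : ℝ) : ℂ)) =
      ∫ u in Ioi (0 : ℝ), cexp (-z * v) * ((u : ℂ) * cexp (-(z + a) * u)) := by
    refine setIntegral_congr_fun measurableSet_Ioi fun u hu => ?_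
    have hu' : 0 < u := hu
    unfold kr
    rw [max_eq_left hu'.le, Complex.ofReal_mul, Complex.ofReal_exp, mul_assoc, ← Complex.exp_add,
      mul_left_comm, ← Complex.exp_add]
    congr 2
    push_cast
    ring
  rw [h1, h2, h3, h4, integral_const_mul, int_lin (by
    rw [Complex.add_re, Complex.ofReal_re]
    linarith)]
  ring

theorem LT2_intble (ha : 0 < a) (hb : HB b) {z : ℂ} (hz : 1 / 2 < z.re) :
    IntegrableOn (fun u : ℝ => E2 a b u * cexp (-z * u)) (Ioi 0) := by
  set x : ℝ := (z.re + 1 / 2) / 2 with hx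
  have hx2 : 1 / 2 < x := by rw [hx]; linarith
  have hx3 : x < z.re := by rw [hx]; linarith
  have h1 : IntegrableOn (fun u : ℝ => (1 / a * ∑' n : ℕ, ‖b n‖ * Real.exp (-(x * Real.log n))) *
      Real.exp ((-(z.re - x)) * u)) (Ioi 0) :=
    (integrableOn_exp_mul_Ioi (by linarith) 0).const_mul _
  refine Integrable.mono' h1 ?_ (Eventually.of_forall fun u => ?_)
  · exact ((E2_cont ha hb).mul (by fun_prop)).aestronglyMeasurable
  · rw [norm_mul, Complex.norm_exp]
    have e : (-z * (u : ℂ)).re = -z.re * u := by simp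
    rw [e]
    calc ‖E2 a b u‖ * Real.exp (-z.re * u) ≤
          ((1 / a * ∑' n : ℕ, ‖b n‖ * Real.exp (-(x * Real.log n))) * Real.exp (x * u)) *
            Real.exp (-z.re * u) :=
          mul_le_mul_of_nonneg_right (E2_bound ha hb hx2 u) (Real.exp_pos _).le
      _ = _ := by
          rw [mul_assoc, ← Real.exp_add]
          congr 2
          ring

theorem LT_E2 (ha : 0 < a) (hb : HB b) {z : ℂ} (hz : 1 / 2 < z.re) :
    ∫ u in Ioi (0 : ℝ), E2 a b u * cexp (-z * u) = 1 / (z + a) ^ 2 * DS b z := by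
  set x : ℝ := (z.re + 1 / 2) / 2 with hx
  have hx2 : 1 / 2 < x := by rw [hx]; linarith
  have hx3 : x < z.re := by rw [hx]; linarith
  have hI : ∀ n : ℕ, Integrable (fun u : ℝ => (b n * ((kr a (u - Real.log n) : ℝ) : ℂ)) *
      cexp (-z * u)) (volume.restrict (Ioi 0)) := by
    intro n
    have h := (base_intble' ha (z := z) (by linarith) (Real.log n)).const_mul (b n)
    simp_rw [mul_assoc]
    exact h
  have hK : IntegrableOn (fun u : ℝ => Real.exp ((-(z.re - x)) * u)) (Ioi 0) :=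
    integrableOn_exp_mul_Ioi (by linarith) 0
  have hS : Summable (fun n : ℕ => ∫ u in Ioi (0 : ℝ),
      ‖(b n * ((kr a (u - Real.log n) : ℝ) : ℂ)) * cexp (-z * u)‖) := by
    refine Summable.of_nonneg_of_le (fun n => integral_nonneg fun u => norm_nonneg _) (fun n => ?_)
      (((hb x hx2).mul_left (1 / a)).mul_right
        (∫ u in Ioi (0 : ℝ), Real.exp ((-(z.re - x)) * u)))
    rw [← integral_const_mul]
    refine integral_mono (hI n).norm (hK.const_mul _) fun u => ?_
    simp only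
    rw [norm_mul, Complex.norm_exp]
    have e : (-z * (u : ℂ)).re = -z.re * u := by simp
    rw [e]
    calc ‖b n * ((kr a (u - Real.log n) : ℝ) : ℂ)‖ * Real.exp (-z.re * u) ≤
          ((1 / a * Real.exp (x * u)) * (‖b n‖ * Real.exp (-(x * Real.log n)))) *
            Real.exp (-z.re * u) :=
          mul_le_mul_of_nonneg_right (term_le' ha (by linarith) u n) (Real.exp_pos _).le
      _ = (1 / a * (‖b n‖ * Real.exp (-(x * Real.log n)))) *
          (Real.exp (x * u) * Real.exp (-z.re * u)) := by ring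
      _ = _ := by
          rw [← Real.exp_add]
          congr 2
          ring
  have key := integral_tsum_of_summable_integral_norm hI hS
  have e1 : ∀ u : ℝ, ∑' n : ℕ, (b n * ((kr a (u - Real.log n) : ℝ) : ℂ)) * cexp (-z * u) =
      E2 a b u * cexp (-z * u) := by
    intro u
    unfold E2
    rw [tsum_mul_right]
  simp_rw [e1] at key
  rw [← key]
  have e2 : ∀ n : ℕ, ∫ u in Ioi (0 : ℝ), (b n * ((kr a (u - Real.log n) : ℝ) : ℂ)) *
      cexp (-z * u) = 1 / (z + a) ^ 2 * (b n * cexp (-z * Real.log n)) := by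
    intro n
    simp_rw [mul_assoc]
    rw [integral_const_mul, base_int' ha (by linarith) (Real.log_natCast_nonneg n)]
    ring
  simp_rw [e2]
  rw [tsum_mul_left]
  rfl

theorem FF_eq (q : ℕ) (a u : ℝ) :
    ((FF q a u : ℝ) : ℂ) = (Nat.totient q : ℂ) * E2 a (be q) u -
      ((Real.exp (u / 2) / (a + 1 / 2) ^ 2 : ℝ) : ℂ) := by
  unfold FF E2
  rw [Complex.ofReal_sub, Complex.ofReal_mul, Complex.ofReal_tsum, Complex.ofReal_natCast]
  congr 2
  refine tsum_congr fun n => ?_
  unfold be kr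
  split_ifs
  · push_cast
    ring
  · simp

theorem FF_cont (q : ℕ) (ha : 0 < a) : Continuous (FF q a) := by
  have h1 : Continuous (fun u : ℝ => ((Nat.totient q : ℂ) * E2 a (be q) u -
      ((Real.exp (u / 2) / (a + 1 / 2) ^ 2 : ℝ) : ℂ)).re) := by
    refine Complex.continuous_re.comp ((continuous_const.mul (E2_cont ha (HB_be q))).sub ?_)
    fun_prop
  have e : FF q a = fun u : ℝ => ((Nat.totient q : ℂ) * E2 a (be q) u -
      ((Real.exp (u / 2) / (a + 1 / 2) ^ 2 : ℝ) : ℂ)).re := by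
    funext u
    rw [← FF_eq, Complex.ofReal_re]
  rw [e]
  exact h1

theorem FF_exp (q : ℕ) (a u : ℝ) (z : ℂ) : ((FF q a u : ℝ) : ℂ) * cexp (-z * u) =
    (Nat.totient q : ℂ) * (E2 a (be q) u * cexp (-z * u)) -
      (1 / ((a : ℂ) + 1 / 2) ^ 2) * cexp (-(z - 1 / 2) * u) := by
  rw [FF_eq]
  have e1 : cexp (-(z - 1 / 2) * u) = cexp ((u / 2 : ℝ) : ℂ) * cexp (-z * u) := by
    rw [← Complex.exp_add]
    congr 1
    push_cast
    ring
  rw [e1, Complex.ofReal_div, Complex.ofReal_exp]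
  push_cast
  ring

theorem FF_int (q : ℕ) (ha : 0 < a) {z : ℂ} (hz : 1 / 2 < z.re) :
    IntegrableOn (fun u : ℝ => ((FF q a u : ℝ) : ℂ) * cexp (-z * u)) (Ioi 0) := by
  have hre : (-(z - 1 / 2)).re < 0 := by
    rw [Complex.neg_re, Complex.sub_re]
    have : ((1 : ℂ) / 2).re = 1 / 2 := by norm_num
    rw [this]
    linarith
  have i1 := (integrableOn_exp_mul_complex_Ioi hre 0).const_mul (1 / ((a : ℂ) + 1 / 2) ^ 2)
  have i2 := (LT2_intble ha (HB_be q) hz).const_mul (Nat.totient q : ℂ)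
  refine (i2.sub i1).congr (Eventually.of_forall fun u => ?_)
  show (Nat.totient q : ℂ) * (E2 a (be q) u * cexp (-z * u)) -
      (1 / ((a : ℂ) + 1 / 2) ^ 2) * cexp (-(z - 1 / 2) * u) = _
  exact (FF_exp q a u z).symm

theorem LT_FF (q : ℕ) (ha : 0 < a) {z : ℂ} (hz : 1 < z.re) :
    lp (fun u => -FF q a u) z = 1 / ((a : ℂ) + 1 / 2) ^ 2 / (z - 1 / 2) -
      1 / (z + a) ^ 2 * ((Nat.totient q : ℂ) * DS (be q) z) := by
  have hre : (-(z - 1 / 2)).re < 0 := by
    rw [Complex.neg_re, Complex.sub_re]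
    have : ((1 : ℂ) / 2).re = 1 / 2 := by norm_num
    rw [this]
    linarith
  have i1 := (integrableOn_exp_mul_complex_Ioi hre 0).const_mul (1 / ((a : ℂ) + 1 / 2) ^ 2)
  have i2 := (LT2_intble ha (HB_be q) (z := z) (by linarith)).const_mul (Nat.totient q : ℂ)
  have e : lp (fun u => -FF q a u) z = ∫ u in Ioi (0 : ℝ),
      ((1 / ((a : ℂ) + 1 / 2) ^ 2) * cexp (-(z - 1 / 2) * u) -
      (Nat.totient q : ℂ) * (E2 a (be q) u * cexp (-z * u))) := by
    unfold Pool.Agent.Q14.LQ.lp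
    refine setIntegral_congr_fun measurableSet_Ioi fun u _ => ?_
    simp only
    rw [Complex.ofReal_neg, neg_mul, FF_exp]
    ring
  rw [e, integral_sub i1 i2, integral_const_mul, integral_const_mul,
    LT_E2 ha (HB_be q) (by linarith), integral_exp_mul_complex_Ioi hre]
  rw [Complex.ofReal_zero, mul_zero, Complex.exp_zero, neg_div_neg_eq]
  ring

theorem t_LT : S_LT := by
  intro q _ a ha
  refine ⟨FF_cont q ha, ?_, ?_⟩
  · intro σ hσ
    have h1 := (FF_int q ha (z := (σ : ℂ)) (by rw [Complex.ofReal_re]; exact hσ)).norm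
    refine h1.congr (Eventually.of_forall fun u => ?_)
    show ‖((FF q a u : ℝ) : ℂ) * cexp (-(σ : ℂ) * u)‖ = |FF q a u| * Real.exp (-(σ * u))
    rw [lp_norm, Complex.ofReal_re]
  · intro z hz
    have hre : 1 < (1 / 2 + z).re := by
      rw [Complex.add_re]
      have : ((1 : ℂ) / 2).re = 1 / 2 := by norm_num
      rw [this]
      linarith
    have hd : deriv (fun z => Ex q (1 / 2 + z)) z = deriv (Ex q) (1 / 2 + z) := by
      have h1 : HasDerivAt (fun z : ℂ => 1 / 2 + z) 1 z := (hasDerivAt_id z).const_add (1 / 2)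
      have h2 := HasDerivAt.comp (h₂ := Ex q) z (Ex_diff (1 / 2 + z)).hasDerivAt h1
      have h3 : HasDerivAt (fun z => Ex q (1 / 2 + z)) (deriv (Ex q) (1 / 2 + z) * 1) z := h2
      rw [h3.deriv, mul_one]
    rw [hd, Ex_log hre, LT_FF q ha hz, DS_be (q := q) (z := z) (by linarith)]
    have n1 : z - 1 / 2 ≠ 0 := by
      intro h
      have := congrArg Complex.re h
      rw [Complex.sub_re] at this
      norm_num at this
      linarith
    have n2 : z + a ≠ 0 := by
      intro h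
      have := congrArg Complex.re h
      rw [Complex.add_re, Complex.ofReal_re, Complex.zero_re] at this
      linarith
    have n3 : (a : ℂ) + 1 / 2 ≠ 0 := by
      intro h
      have := congrArg Complex.re h
      rw [Complex.add_re, Complex.ofReal_re, Complex.zero_re] at this
      norm_num at this
      linarith
    have e6 : (1 / 2 + z) - 1 = z - 1 / 2 := by ring
    rw [e6]
    generalize (∑ χ : DirichletCharacter ℂ q, logDeriv (LFunction χ) (1 / 2 + z)) = S
    generalize Ex q (1 / 2 + z) = X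
    have e7 : 2 * (z + a) ^ 2 * (1 / ((a : ℂ) + 1 / 2) ^ 2 / (z - 1 / 2) -
        1 / (z + a) ^ 2 * (-S)) =
        2 * (S + 1 / (z - 1 / 2)) + 2 * (z + 2 * a + 1 / 2) / ((a : ℂ) + 1 / 2) ^ 2 := by
      obtain ⟨w, hw⟩ : ∃ w : ℂ, w = z - 1 / 2 := ⟨_, rfl⟩
      obtain ⟨c, hc⟩ : ∃ c : ℂ, c = (a : ℂ) + 1 / 2 := ⟨_, rfl⟩
      have h1 : z + a = w + c := by rw [hw, hc]; ring
      have h2 : z + 2 * a + 1 / 2 = w + 2 * c := by rw [hw, hc]; ring
      rw [h1] at n2
      rw [← hw] at n1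
      rw [← hc] at n3
      rw [h1, h2, ← hw, ← hc]
      field_simp
      ring
    rw [e7]
    ring

end Pool.Agent.H627.EXLT
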