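import Pool.Agent.H676.ED.Stm

/-!
# ED-PAT: a random sparse pattern (helper627 for helper676)
-/

set_option autoImplicit false

namespace Pool.Agent.H627.ED

open Finset Pool.Agent.H676.ED

section weights

variable {α : Type*} [DecidableEq α]

/-- the weight of a subset -/
noncomputable def wt (P : Finset α) (ρ : ℝ) (S : Finset α) : ℝ :=
  (∏ _e ∈ S, ρ) * ∏ _e ∈ P \ S, (1 - ρ)

lemma wt_pos {P : Finset α} {ρ : ℝ} (h0 : 0 < ρ) (h1 : ρ < 1) (S : Finset α) :
    0 < wt P ρ S := by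
  unfold wt
  exact mul_pos (prod_pos fun _ _ => h0) (prod_pos fun _ _ => by linarith)

lemma sum_wt (P : Finset α) (ρ : ℝ) : ∑ S ∈ P.powerset, wt P ρ S = 1 := by
  unfold wt
  rw [← prod_add]
  simp

lemma sum_wt_mem (P : Finset α) (ρ : ℝ) {e : α} (he : e ∈ P) :
    ∑ S ∈ P.powerset, wt P ρ S * (if e ∈ S then 1 else 0) = ρ := by
  have h1 := prod_add (fun _ => ρ) (fun e' => if e' = e then 0 else 1 - ρ) P
  have h2 : ∏ i ∈ P, (ρ + if i = e then 0 else 1 - ρ) = ρ := by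
    have h3 : ∀ i ∈ P, (ρ + if i = e then 0 else 1 - ρ) = if i = e then ρ else 1 := by
      intro i _
      split_ifs <;> ring
    rw [prod_congr rfl h3, prod_ite_eq', if_pos he]
  rw [h2] at h1
  refine Eq.trans ?_ h1.symm
  refine sum_congr rfl fun S hS => ?_
  unfold wt
  by_cases h : e ∈ S
  · rw [if_pos h, mul_one]
    congr 1
    refine prod_congr rfl fun i hi => ?_
    rw [mem_sdiff] at hi
    rw [if_neg]
    rintro rfl
    exact hi.2 h
  · have h4 : ∏ i ∈ P \ S, (if i = e then 0 else 1 - ρ) = 0 := by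
      refine prod_eq_zero (i := e) (mem_sdiff.2 ⟨he, h⟩) ?_
      rw [if_pos rfl]
    rw [if_neg h, mul_zero, h4, mul_zero]

lemma card_eq_sum {P S : Finset α} (h : S ⊆ P) :
    (S.card : ℝ) = ∑ e ∈ P, if e ∈ S then 1 else 0 := by
  rw [sum_boole]
  congr 2
  ext x
  rw [mem_filter]
  exact ⟨fun hx => ⟨h hx, hx⟩, fun hx => hx.2⟩

lemma sum_wt_card (P : Finset α) (ρ : ℝ) :
    ∑ S ∈ P.powerset, wt P ρ S * S.card = P.card * ρ := by
  have h1 : ∀ S ∈ P.powerset, wt P ρ S * S.card =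
      ∑ e ∈ P, wt P ρ S * (if e ∈ S then 1 else 0) := by
    intro S hS
    rw [mem_powerset] at hS
    rw [card_eq_sum hS, mul_sum]
  rw [sum_congr rfl h1, sum_comm, sum_congr rfl fun e he => sum_wt_mem P ρ he, sum_const,
    nsmul_eq_mul]

/-- the Chernoff bound -/
lemma chernoff (P X : Finset α) {ρ t K : ℝ} (k : ℕ) (h0 : 0 ≤ ρ) (h1 : ρ ≤ 1) (ht : 0 ≤ t)
    (hX : (X.card : ℝ) ≤ K) :
    ∑ S ∈ P.powerset, wt P ρ S * (if k < (S ∩ X).card then 1 else 0) ≤
      Real.exp (-(t * k) + ρ * (Real.exp t - 1) * K) := by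
  have hwt : ∀ S, 0 ≤ wt P ρ S := by
    intro S
    unfold wt
    exact mul_nonneg (prod_nonneg fun _ _ => h0) (prod_nonneg fun _ _ => by linarith)
  have h2 : ∀ S : Finset α, ∏ e ∈ S, Real.exp (t * if e ∈ X then 1 else 0) =
      Real.exp (t * (S ∩ X).card) := by
    intro S
    rw [← Real.exp_sum, ← mul_sum, sum_boole]
    rw [filter_mem_eq_inter]
  have h3 : ∀ S ∈ P.powerset, wt P ρ S * (if k < (S ∩ X).card then 1 else 0) ≤
      Real.exp (-(t * k)) * ((∏ e ∈ S, ρ * Real.exp (t * if e ∈ X then 1 else 0)) *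
        ∏ _e ∈ P \ S, (1 - ρ)) := by
    intro S _
    have h4 : (∏ e ∈ S, ρ * Real.exp (t * if e ∈ X then 1 else 0)) * ∏ _e ∈ P \ S, (1 - ρ) =
        wt P ρ S * Real.exp (t * (S ∩ X).card) := by
      rw [prod_mul_distrib, h2]
      unfold wt
      ring
    rw [h4]
    have h5 : (if k < (S ∩ X).card then (1:ℝ) else 0) ≤
        Real.exp (-(t * k)) * Real.exp (t * (S ∩ X).card) := by
      rw [← Real.exp_add]
      split_ifs with h
      · refine Real.one_le_exp ?_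
        have h6 : (k : ℝ) ≤ (S ∩ X).card := by exact_mod_cast h.le
        have h7 := mul_le_mul_of_nonneg_left h6 ht
        linarith
      · exact (Real.exp_pos _).le
    have h6 := mul_le_mul_of_nonneg_left h5 (hwt S)
    linarith
  refine (sum_le_sum h3).trans ?_
  rw [← mul_sum, ← prod_add, Real.exp_add]
  refine mul_le_mul_of_nonneg_left ?_ (Real.exp_pos _).le
  have het : 0 ≤ Real.exp t - 1 := by
    have := Real.add_one_le_exp t
    linarith
  have h4 : ∀ e ∈ P, ρ * Real.exp (t * if e ∈ X then 1 else 0) + (1 - ρ) ≤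
      Real.exp (ρ * (Real.exp t - 1) * if e ∈ X then 1 else 0) := by
    intro e _
    split_ifs
    · rw [mul_one, mul_one]
      have := Real.add_one_le_exp (ρ * (Real.exp t - 1))
      linarith
    · rw [mul_zero, mul_zero, Real.exp_zero]
      linarith
  refine (prod_le_prod (fun e _ => ?_) h4).trans ?_
  · have := Real.exp_pos (t * if e ∈ X then 1 else 0)
    have h5 : 0 ≤ 1 - ρ := by linarith
    positivity
  · rw [← Real.exp_sum, ← mul_sum, sum_boole, filter_mem_eq_inter]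
    refine Real.exp_le_exp.2 ?_
    refine mul_le_mul_of_nonneg_left ?_ (mul_nonneg h0 het)
    refine le_trans ?_ hX
    exact_mod_cast card_le_card inter_subset_right

end weights

/-- the pairs between `M` and `W` -/
def XX {F : ℕ} (W M : Finset (Fin F)) : Finset (Sym2 (Fin F)) :=
  (M ×ˢ W).image fun p => s(p.1, p.2)

lemma XX_card {F : ℕ} (W M : Finset (Fin F)) : (XX W M).card ≤ M.card * W.card := by
  unfold XX
  refine card_image_le.trans ?_
  rw [card_product]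

lemma mem_XX {F : ℕ} {W M : Finset (Fin F)} {e : Sym2 (Fin F)} :
    e ∈ XX W M ↔ ∃ x ∈ M, ∃ y ∈ W, e = s(x, y) := by
  unfold XX
  rw [mem_image]
  constructor
  · rintro ⟨p, hp, rfl⟩
    rw [mem_product] at hp
    exact ⟨p.1, hp.1, p.2, hp.2, rfl⟩
  · rintro ⟨x, hx, y, hy, rfl⟩
    exact ⟨(x, y), mem_product.2 ⟨hx, hy⟩, rfl⟩

/-- a set of pairs is bad -/
def Bad (F q r D : ℕ) (S : Finset (Sym2 (Fin F))) : Prop :=
  ∃ W M : Finset (Fin F), M ⊆ W ∧ W.card ≤ r ∧ W.card < q * M.card ∧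
    D * M.card < (S ∩ XX W M).card

lemma exp_bd {t : ℝ} (h0 : 0 ≤ t) (h1 : t ≤ 1) : Real.exp t - 1 ≤ t + t ^ 2 := by
  have h2 := Real.abs_exp_sub_one_sub_id_le (x := t) (by rw [abs_of_nonneg h0]; exact h1)
  rw [abs_le] at h2
  linarith [h2.2]

lemma chern_t {t : ℝ} (h0 : 0 ≤ t) (h1 : t ≤ 1) : (1 - t) * (Real.exp t - 1) - t ≤ -t ^ 3 := by
  have h2 := mul_le_mul_of_nonneg_left (exp_bd h0 h1) (by linarith : 0 ≤ 1 - t)
  have h3 : (1 - t) * (t + t ^ 2) = t - t ^ 3 := by ring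
  linarith

/-- the sum over all pairs of sets -/
lemma sum_pairs (F : ℕ) (y z : ℝ) (hz : 0 < z) :
    ∑ W : Finset (Fin F), ∑ M ∈ W.powerset,
      (z⁻¹) ^ W.card * (y ^ M.card - if M = ∅ then 1 else 0) =
      (1 + (1 + y) / z) ^ F - (1 + 1 / z) ^ F := by
  have h1 : ∀ W : Finset (Fin F), ∑ M ∈ W.powerset,
      (z⁻¹) ^ W.card * (y ^ M.card - if M = ∅ then 1 else 0) =
      ((1 + y) / z) ^ W.card - (1 / z) ^ W.card := by
    intro W
    rw [← mul_sum, sum_sub_distrib]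
    have h2 := sum_pow_mul_eq_add_pow y 1 W
    simp only [one_pow, mul_one] at h2
    rw [h2, sum_ite_eq', if_pos (empty_mem_powerset W), mul_sub, mul_one, ← mul_pow]
    congr 2
    · field_simp
      ring
    · rw [one_div]
  rw [sum_congr rfl fun W _ => h1 W, sum_sub_distrib]
  have h3 := Fintype.sum_pow_mul_eq_add_pow (Fin F) ((1 + y) / z) 1
  have h4 := Fintype.sum_pow_mul_eq_add_pow (Fin F) (1 / z) 1
  simp only [one_pow, mul_one, Fintype.card_fin] at h3 h4
  rw [h3, h4, add_comm ((1 + y) / z), add_comm (1 / z)]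

lemma diff_bd {F : ℕ} (hF : 1 ≤ F) {y : ℝ} (h0 : 0 ≤ y) (h1 : y ≤ 1) :
    (1 + (1 + y) / (2 * (F : ℝ))) ^ F - (1 + 1 / (2 * (F : ℝ))) ^ F ≤ 2 * y := by
  have hFR : (0:ℝ) < F := by exact_mod_cast hF
  obtain ⟨a, ha⟩ : ∃ a : ℝ, a = 1 + (1 + y) / (2 * (F : ℝ)) := ⟨_, rfl⟩
  obtain ⟨b, hb⟩ : ∃ b : ℝ, b = 1 + 1 / (2 * (F : ℝ)) := ⟨_, rfl⟩
  rw [← ha, ← hb]
  have hab : a - b = y / (2 * F) := by
    rw [ha, hb]
    field_simp
    ring
  have ha1 : 1 ≤ a := by
    rw [ha]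
    have : 0 ≤ (1 + y) / (2 * (F : ℝ)) := by positivity
    linarith
  have hb0 : 0 < b := by
    rw [hb]
    positivity
  have haF : a ^ F ≤ 3 := by
    have h2 : a ≤ Real.exp ((1 + y) / (2 * (F : ℝ))) := by
      have := Real.add_one_le_exp ((1 + y) / (2 * (F : ℝ)))
      linarith
    have h3 : a ^ F ≤ Real.exp ((1 + y) / (2 * (F : ℝ))) ^ F :=
      pow_le_pow_left₀ (by linarith) h2 F
    rw [← Real.exp_nat_mul] at h3
    have h4 : (F : ℝ) * ((1 + y) / (2 * (F : ℝ))) ≤ 1 := by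
      have : (F : ℝ) * ((1 + y) / (2 * (F : ℝ))) = (1 + y) / 2 := by field_simp
      rw [this]
      linarith
    have h5 := Real.exp_le_exp.2 h4
    have h6 := Real.exp_one_lt_d9
    linarith
  -- Bernoulli
  have hber : 1 + (F : ℝ) * (b / a - 1) ≤ (b / a) ^ F :=
    one_add_mul_sub_le_pow (by have : 0 < b / a := by positivity
                               linarith) F
  have haF0 : 0 < a ^ F := by positivity
  have h2 : a ^ F * (1 + (F : ℝ) * (b / a - 1)) ≤ b ^ F := by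
    have h3 := mul_le_mul_of_nonneg_left hber haF0.le
    rw [div_pow, mul_div_cancel₀ _ haF0.ne'] at h3
    exact h3
  have h4 : a ^ F - b ^ F ≤ a ^ F * ((F : ℝ) * (1 - b / a)) := by linarith
  have h5 : 1 - b / a ≤ y / (2 * F) := by
    have h6 : 1 - b / a = (a - b) / a := by field_simp
    rw [h6, hab]
    exact div_le_self (by positivity) ha1
  have h6 : (F : ℝ) * (1 - b / a) ≤ y / 2 := by
    have h7 := mul_le_mul_of_nonneg_left h5 hFR.le
    have h8 : (F : ℝ) * (y / (2 * F)) = y / 2 := by field_simp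
    linarith
  have h7 := mul_le_mul_of_nonneg_left h6 haF0.le
  have h8 : a ^ F * (y / 2) ≤ 3 * (y / 2) := by gcongr
  linarith

open Classical in
lemma bad_bd {F q r D : ℕ} {ρ t y : ℝ} (P : Finset (Sym2 (Fin F))) (hF : 1 ≤ F)
    (ht0 : 0 ≤ t) (ht1 : t ≤ 1) (hρ0 : 0 ≤ ρ) (hρ1 : ρ ≤ 1)
    (hρr : ρ * r = (1 - t) * D) (hy : y = (2 * (F:ℝ)) ^ q * Real.exp (-t ^ 3 * D)) (hy1 : y ≤ 1) :
    ∑ S ∈ P.powerset, wt P ρ S * (if Bad F q r D S then 1 else 0) ≤ 2 * y := by
  have hwt : ∀ S, 0 ≤ wt P ρ S := by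
    intro S
    unfold wt
    exact mul_nonneg (prod_nonneg fun _ _ => hρ0) (prod_nonneg fun _ _ => by linarith)
  have hFR : (1:ℝ) ≤ F := by exact_mod_cast hF
  have hz : (1:ℝ) ≤ 2 * (F:ℝ) := by linarith
  have hz0 : (0:ℝ) < 2 * (F:ℝ) := by linarith
  have hy0 : 0 ≤ y := by
    rw [hy]
    positivity
  have hnn : ∀ (S : Finset (Sym2 (Fin F))) (W M : Finset (Fin F)),
      0 ≤ if W.card ≤ r ∧ W.card < q * M.card then
        wt P ρ S * (if D * M.card < (S ∩ XX W M).card then (1:ℝ) else 0) else 0 := by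
    intro S W M
    have := hwt S
    split_ifs
    · rw [mul_one]; exact this
    · rw [mul_zero]
    · exact le_refl _
  have h1 : ∀ S ∈ P.powerset, wt P ρ S * (if Bad F q r D S then 1 else 0) ≤
      ∑ W : Finset (Fin F), ∑ M ∈ W.powerset, if W.card ≤ r ∧ W.card < q * M.card then
        wt P ρ S * (if D * M.card < (S ∩ XX W M).card then (1:ℝ) else 0) else 0 := by
    intro S _
    by_cases hb : Bad F q r D S
    · obtain ⟨W, M, hMW, hWr, hWq, hc⟩ := hb
      have hb : Bad F q r D S := ⟨W, M, hMW, hWr, hWq, hc⟩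
      rw [if_pos hb]
      refine le_trans ?_ (single_le_sum (f := fun W : Finset (Fin F) => ∑ M ∈ W.powerset,
        if W.card ≤ r ∧ W.card < q * M.card then
        wt P ρ S * (if D * M.card < (S ∩ XX W M).card then (1:ℝ) else 0) else 0)
        (fun W _ => sum_nonneg fun M _ => hnn S W M) (mem_univ W))
      refine le_trans ?_ (single_le_sum (f := fun M : Finset (Fin F) =>
        if W.card ≤ r ∧ W.card < q * M.card then
        wt P ρ S * (if D * M.card < (S ∩ XX W M).card then (1:ℝ) else 0) else 0)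
        (fun M _ => hnn S W M) (mem_powerset.2 hMW))
      rw [if_pos ⟨hWr, hWq⟩, if_pos hc]
    · rw [if_neg hb, mul_zero]
      exact sum_nonneg fun W _ => sum_nonneg fun M _ => hnn S W M
  refine (sum_le_sum h1).trans ?_
  rw [sum_comm]
  have h2 : ∀ W ∈ (univ : Finset (Finset (Fin F))), ∑ S ∈ P.powerset, ∑ M ∈ W.powerset,
      (if W.card ≤ r ∧ W.card < q * M.card then
        wt P ρ S * (if D * M.card < (S ∩ XX W M).card then (1:ℝ) else 0) else 0) ≤
      ∑ M ∈ W.powerset, ((2 * (F:ℝ))⁻¹) ^ W.card * (y ^ M.card - if M = ∅ then 1 else 0) := by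
    intro W _
    rw [sum_comm]
    refine sum_le_sum fun M hM => ?_
    by_cases hc : W.card ≤ r ∧ W.card < q * M.card
    · simp only [if_pos hc]
      have hM0 : M ≠ ∅ := by
        rintro rfl
        rw [card_empty, mul_zero] at hc
        exact absurd hc.2 (Nat.not_lt_zero _)
      rw [if_neg hM0, sub_zero]
      have hX : ((XX W M).card : ℝ) ≤ (M.card : ℝ) * r := by
        have h3 := (XX_card W M).trans (Nat.mul_le_mul_left M.card hc.1)
        exact_mod_cast h3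
      refine (chernoff P (XX W M) (D * M.card) hρ0 hρ1 ht0 hX).trans ?_
      have h4 : -(t * ((D * M.card : ℕ) : ℝ)) + ρ * (Real.exp t - 1) * ((M.card : ℝ) * r) ≤
          (M.card : ℝ) * (-t ^ 3 * D) := by
        push_cast
        have h5 : ρ * (Real.exp t - 1) * ((M.card : ℝ) * r) =
            (M.card : ℝ) * D * ((1 - t) * (Real.exp t - 1)) := by
          calc ρ * (Real.exp t - 1) * ((M.card : ℝ) * r) =
              (ρ * r) * ((Real.exp t - 1) * (M.card : ℝ)) := by ring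
            _ = _ := by rw [hρr]; ring
        rw [h5]
        have h6 := mul_le_mul_of_nonneg_left (chern_t ht0 ht1)
          (by positivity : 0 ≤ (M.card : ℝ) * D)
        linarith
      refine (Real.exp_le_exp.2 h4).trans ?_
      rw [Real.exp_nat_mul, hy, mul_pow, ← pow_mul, ← mul_assoc]
      have h7 : 1 ≤ ((2 * (F:ℝ))⁻¹) ^ W.card * (2 * (F:ℝ)) ^ (q * M.card) := by
        rw [inv_pow, inv_mul_eq_div, one_le_div (by positivity)]
        exact pow_le_pow_right₀ hz hc.2.le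
      calc Real.exp (-t ^ 3 * D) ^ M.card = 1 * Real.exp (-t ^ 3 * D) ^ M.card := (one_mul _).symm
        _ ≤ _ := by gcongr
    · simp only [if_neg hc, sum_const_zero]
      refine mul_nonneg (by positivity) ?_
      split_ifs with h
      · rw [h, card_empty, pow_zero, sub_self]
      · rw [sub_zero]
        positivity
  refine (sum_le_sum h2).trans ?_
  rw [sum_pairs F y (2 * (F:ℝ)) hz0]
  exact diff_bd hF hy0 hy1

lemma fin_ineq {ε u F y : ℝ} (hε : 0 < ε) (hε1 : ε ≤ 1) (hu : 0 < u) (hF : 8 ≤ ε * F)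
    (hF0 : 0 < F) (hy : y ≤ ε / 64 * u) :
    (1 - ε) * u * F ^ 2 ≤ F * (F - 1) * ((1 - ε / 2) * u - 2 * y) := by
  have h1 : (1 - ε / 8) * F ^ 2 ≤ F * (F - 1) := by
    have := mul_le_mul_of_nonneg_left hF hF0.le
    nlinarith
  have h2 : (1 - 17 / 32 * ε) * u ≤ (1 - ε / 2) * u - 2 * y := by linarith
  have h3 : 0 ≤ (1 - 17 / 32 * ε) * u := by
    have : 0 ≤ 1 - 17 / 32 * ε := by linarith
    positivity
  have h4 : 0 ≤ F * (F - 1) := by
    have : 0 ≤ (1 - ε / 8) * F ^ 2 := by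
      have : 0 ≤ 1 - ε / 8 := by linarith
      positivity
    linarith
  have h5 := mul_le_mul h1 h2 h3 h4
  refine le_trans ?_ h5
  have h6 : (1 - ε / 8) * F ^ 2 * ((1 - 17 / 32 * ε) * u) - (1 - ε) * u * F ^ 2 =
      (u * F ^ 2) * (11 / 32 * ε + 17 / 256 * ε ^ 2) := by ring
  have h7 : 0 ≤ (u * F ^ 2) * (11 / 32 * ε + 17 / 256 * ε ^ 2) := by positivity
  linarith

theorem t_PAT : S_PAT := by
  classical
  intro ε F q r D hε hε1 hq hD hDr hrF h8 hmain
  have hrR : (1:ℝ) ≤ r := by exact_mod_cast hD.trans hDr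
  have hDR : (1:ℝ) ≤ D := by exact_mod_cast hD
  have hFR : (1:ℝ) ≤ F := by exact_mod_cast (hD.trans hDr).trans hrF
  have hF1 : 1 ≤ F := (hD.trans hDr).trans hrF
  have hDrR : (D:ℝ) ≤ r := by exact_mod_cast hDr
  have hrFR : (r:ℝ) ≤ F := by exact_mod_cast hrF
  have hqR : (1:ℝ) ≤ q := by exact_mod_cast hq
  obtain ⟨u, hu⟩ : ∃ u : ℝ, u = (D:ℝ) / r := ⟨_, rfl⟩
  obtain ⟨ρ, hρ⟩ : ∃ ρ : ℝ, ρ = (1 - ε / 2) * u := ⟨_, rfl⟩
  obtain ⟨y, hy⟩ : ∃ y : ℝ, y = (2 * (F:ℝ)) ^ q * Real.exp (-(ε / 2) ^ 3 * D) := ⟨_, rfl⟩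
  have hu0 : 0 < u := by rw [hu]; positivity
  have hu1 : u ≤ 1 := by rw [hu, div_le_one (by linarith)]; exact hDrR
  have huF : 1 / (F:ℝ) ≤ u := by
    rw [hu]
    exact div_le_div₀ (by linarith) hDR (by linarith) hrFR
  have hρ0 : 0 < ρ := by
    rw [hρ]
    have : 0 < 1 - ε / 2 := by linarith
    positivity
  have hρ1 : ρ < 1 := by
    rw [hρ]
    have h1 : (1 - ε / 2) * u ≤ (1 - ε / 2) * 1 := by
      have : 0 < 1 - ε / 2 := by linarith
      gcongr
    linarith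
  have hρr : ρ * r = (1 - ε / 2) * D := by
    rw [hρ, hu]
    field_simp
  have hyle : y ≤ ε / (64 * F) := by
    have h1 : 64 * q * F * (2 * (F : ℝ)) ^ q * Real.exp (-(ε / 2) ^ 3 * D) ≤
        ε * Real.exp ((ε / 2) ^ 3 * D) * Real.exp (-(ε / 2) ^ 3 * D) := by gcongr
    have h2 : ε * Real.exp ((ε / 2) ^ 3 * D) * Real.exp (-(ε / 2) ^ 3 * D) = ε := by
      rw [mul_assoc, ← Real.exp_add]
      have : (ε / 2) ^ 3 * D + -(ε / 2) ^ 3 * (D:ℝ) = 0 := by ring
      rw [this, Real.exp_zero, mul_one]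
    have h3 : 64 * q * F * (2 * (F : ℝ)) ^ q * Real.exp (-(ε / 2) ^ 3 * D) =
        q * (64 * F * y) := by
      rw [hy]
      ring
    rw [h2, h3] at h1
    have hy0 : 0 ≤ y := by
      rw [hy]
      positivity
    have h4 : 64 * F * y ≤ q * (64 * F * y) := by
      have : 0 ≤ 64 * F * y := by positivity
      nlinarith
    rw [le_div_iff₀ (by positivity)]
    linarith
  have hyu : y ≤ ε / 64 * u := by
    refine hyle.trans ?_
    have h1 : ε / (64 * F) = ε / 64 * (1 / F) := by field_simp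
    rw [h1]
    gcongr
  have hy1 : y ≤ 1 := by
    refine hyu.trans ?_
    have : ε / 64 * u ≤ ε / 64 * 1 := by gcongr
    linarith
  obtain ⟨P, hP⟩ : ∃ P : Finset (Sym2 (Fin F)), P = (⊤ : SimpleGraph (Fin F)).edgeFinset := ⟨_, rfl⟩
  have hN : (P.card : ℝ) = F * (F - 1) / 2 := by
    rw [hP, SimpleGraph.card_edgeFinset_top_eq_card_choose_two, Fintype.card_fin,
      Nat.cast_choose_two]
  have hbad := bad_bd (q := q) (r := r) (D := D) P hF1 (by linarith : 0 ≤ ε / 2)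
    (by linarith) hρ0.le hρ1.le hρr hy hy1
  have hF8 : (8:ℝ) ≤ F := by nlinarith
  have hNpos : 0 < (P.card : ℝ) := by
    rw [hN]
    have : 0 < (F:ℝ) - 1 := by linarith
    positivity
  have hcpos : 0 < ρ - 2 * y := by
    rw [hρ]
    have h1 : 0 < (1 - ε / 2 - ε / 32) * u := by
      have : 0 < 1 - ε / 2 - ε / 32 := by linarith
      positivity
    linarith
  have hsum : ∑ S ∈ P.powerset, wt P ρ S * ((P.card : ℝ) * (ρ - 2 * y)) ≤
      ∑ S ∈ P.powerset, wt P ρ S *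
        ((S.card : ℝ) - (P.card : ℝ) * (if Bad F q r D S then 1 else 0)) := by
    rw [← sum_mul, sum_wt, one_mul]
    have h1 : ∑ S ∈ P.powerset, wt P ρ S *
        ((S.card : ℝ) - (P.card : ℝ) * (if Bad F q r D S then 1 else 0)) =
        ∑ S ∈ P.powerset, wt P ρ S * (S.card : ℝ) -
        (P.card : ℝ) * ∑ S ∈ P.powerset, wt P ρ S * (if Bad F q r D S then 1 else 0) := by
      rw [mul_sum, ← sum_sub_distrib]
      refine sum_congr rfl fun S _ => ?_
      ring
    rw [h1, sum_wt_card]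
    have h2 := mul_le_mul_of_nonneg_left hbad hNpos.le
    linarith
  obtain ⟨S, hS, hle⟩ := exists_le_of_sum_le ⟨∅, empty_mem_powerset P⟩ hsum
  rw [mem_powerset] at hS
  have hle2 := le_of_mul_le_mul_left hle (wt_pos hρ0 hρ1 S)
  have hc0 : 0 < (P.card : ℝ) * (ρ - 2 * y) := mul_pos hNpos hcpos
  have hnb : ¬ Bad F q r D S := by
    intro hb
    rw [if_pos hb, mul_one] at hle2
    have h1 : (S.card : ℝ) ≤ P.card := by exact_mod_cast card_le_card hS
    linarith
  rw [if_neg hnb, mul_zero, sub_zero] at hle2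
  have hE : (SimpleGraph.fromEdgeSet (S : Set (Sym2 (Fin F)))).edgeSet = (S : Set (Sym2 (Fin F))) := by
    rw [SimpleGraph.edgeSet_fromEdgeSet]
    ext e
    constructor
    · rintro ⟨h1, _⟩
      exact h1
    · intro h1
      refine ⟨h1, ?_⟩
      have h2 := hS h1
      rw [hP, SimpleGraph.mem_edgeFinset] at h2
      exact (⊤ : SimpleGraph (Fin F)).not_isDiag_of_mem_edgeSet h2
  refine ⟨SimpleGraph.fromEdgeSet (S : Set (Sym2 (Fin F))), ?_, ?_⟩
  · intro W M hMW hWr hWq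
    rw [hE]
    have h1 : {e : Sym2 (Fin F) | e ∈ (S : Set (Sym2 (Fin F))) ∧
        ∃ x ∈ M, ∃ y ∈ W, e = s(x, y)} = ((S ∩ XX W M : Finset (Sym2 (Fin F))) : Set _) := by
      ext e
      rw [Finset.mem_coe, mem_inter, mem_XX]
      exact Iff.rfl
    rw [h1, Set.ncard_coe_finset]
    by_contra hcon
    push Not at hcon
    exact hnb ⟨W, M, hMW, hWr, hWq, hcon⟩
  · rw [hE, Set.ncard_coe_finset]
    have h1 := fin_ineq hε hε1 hu0 h8 (by linarith : (0:ℝ) < F) hyu
    rw [← hρ] at h1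
    rw [hN] at hle2
    rw [← hu]
    linarith

end Pool.Agent.H627.ED
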