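import Pool.Agent.H558.PP.DStm

set_option autoImplicit false

/-!
# Logarithmic density: all residue classes, logarithmic mean (helper627, for helper558)
-/

namespace Pool.Agent.H627.PPD6

open PowerSeries Finset Pool.Agent.R836.PP Pool.Agent.H558.KK Pool.Agent.H558.PP
open Pool.Agent.K7.H72.MT hiding W few dis DD dis_stable dis_vary DD_stable DD_sum DD_block few_bad
  dis_le DD_le base count

/-- geometric series -/
theorem geo_aux (X a : ℕ) : ∀ K : ℕ, a < 2 ^ (K + X) →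
    (∑ k ∈ range K, if a < 2 ^ (k + X) then 1 / (2 : ℝ) ^ (k + X) else 0) + 2 / 2 ^ (K + X) ≤
      2 / ((a : ℝ) + 1) := by
  intro K
  induction K with
  | zero =>
    intro h
    rw [sum_range_zero, zero_add]
    apply div_le_div_of_nonneg_left (by norm_num) (by positivity)
    exact_mod_cast h
  | succ K ih =>
    intro h
    rw [sum_range_succ]
    by_cases h1 : a < 2 ^ (K + X)
    · rw [if_pos h1]
      have h2 := ih h1
      have h3 : (2 : ℝ) / 2 ^ (K + 1 + X) = 1 / 2 ^ (K + X) := by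
        rw [show K + 1 + X = K + X + 1 by ring, pow_succ]
        field_simp
      have h4 : (2 : ℝ) / 2 ^ (K + X) = 1 / 2 ^ (K + X) + 1 / 2 ^ (K + X) := by ring
      rw [h3]
      linarith
    · rw [if_neg h1]
      have h2 : (∑ k ∈ range K, if a < 2 ^ (k + X) then 1 / (2 : ℝ) ^ (k + X) else 0) = 0 := by
        apply sum_eq_zero
        intro k hk
        rw [mem_range] at hk
        rw [if_neg]
        have h3 : 2 ^ (k + X) ≤ 2 ^ (K + X) := Nat.pow_le_pow_right (by norm_num) (by omega)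
        omega
      rw [h2, zero_add, zero_add]
      apply div_le_div_of_nonneg_left (by norm_num) (by positivity)
      exact_mod_cast h

theorem geo (X a K : ℕ) :
    (∑ k ∈ range K, if a < 2 ^ (k + X) then 1 / (2 : ℝ) ^ (k + X) else 0) ≤
      2 / ((a : ℝ) + 1) := by
  by_cases h : a < 2 ^ (K + X)
  · have h1 := geo_aux X a K h
    have h2 : (0 : ℝ) ≤ 2 / 2 ^ (K + X) := by positivity
    linarith
  · have h2 : (∑ k ∈ range K, if a < 2 ^ (k + X) then 1 / (2 : ℝ) ^ (k + X) else 0) = 0 := by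
      apply sum_eq_zero
      intro k hk
      rw [mem_range] at hk
      rw [if_neg]
      have h3 : 2 ^ (k + X) ≤ 2 ^ (K + X) := Nat.pow_le_pow_right (by norm_num) (by omega)
      omega
    rw [h2]
    positivity

open scoped Classical in
/-- the sum over the scales and the logarithmic mean -/
theorem sum_N1 (G : S) (X K : ℕ) (x : El) (t : ℕ) :
    ∑ k ∈ range K, (N1 G (2 ^ (k + X)) x t : ℝ) / 2 ^ (k + X) ≤
      ∑ n ∈ range (2 ^ (K + X)) with x.2.2 n ∧ coeff n (x.1 * G ^ t) ≠ x.2.1 n,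
        2 / ((n : ℝ) + 1) := by
  have h1 : ∀ k ∈ range K, (N1 G (2 ^ (k + X)) x t : ℝ) / 2 ^ (k + X) =
      ∑ n ∈ range (2 ^ (K + X)) with x.2.2 n ∧ coeff n (x.1 * G ^ t) ≠ x.2.1 n,
        if n < 2 ^ (k + X) then 1 / (2 : ℝ) ^ (k + X) else 0 := by
    intro k hk
    rw [mem_range] at hk
    have h3 : 2 ^ (k + X) ≤ 2 ^ (K + X) := Nat.pow_le_pow_right (by norm_num) (by omega)
    rw [← sum_filter, sum_const, nsmul_eq_mul, filter_filter]
    have h4 : N1 G (2 ^ (k + X)) x t = #{n ∈ range (2 ^ (K + X)) |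
        (x.2.2 n ∧ coeff n (x.1 * G ^ t) ≠ x.2.1 n) ∧ n < 2 ^ (k + X)} := by
      unfold N1
      congr 1
      ext n
      simp only [mem_filter, mem_range]
      constructor
      · rintro ⟨g1, g2⟩
        exact ⟨by omega, g2, g1⟩
      · rintro ⟨-, g2, g1⟩
        exact ⟨g1, g2⟩
    rw [h4]
    ring
  rw [sum_congr rfl h1, sum_comm]
  exact sum_le_sum fun n _ => geo X n K

open scoped Classical in
/-- one residue class modulo `2 ^ b` -/
theorem cls_sum {M m b b' ρ : ℕ} (hM : M = 2 ^ b' * m) (hm : Odd m) (hb : b' ≤ b) (w : ℕ → ZMod 2)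
    (t J : ℕ) :
    ∑ a ∈ range (2 ^ J) with (ρ % 2 ^ b + 2 ^ b * a) % m = ρ % m ∧
      coeff a (node P2 b (ρ % 2 ^ b) (t % 2 ^ b) 1 * P2 ^ (t / 2 ^ b)) ≠ w (ρ % 2 ^ b + 2 ^ b * a),
        2 / ((a : ℝ) + 1) ≤
      2 * 2 ^ b * ∑ n ∈ range (2 ^ (J + b)) with n % M = ρ % M ∧ coeff n (P2 ^ t) ≠ w n,
        1 / ((n : ℝ) + 1) := by
  have hP : 0 < 2 ^ b := by positivity
  set β : ℕ := ρ % 2 ^ b with hβ
  have hβlt : β < 2 ^ b := Nat.mod_lt _ hP
  have h1 : ∀ a : ℕ, (2 : ℝ) / ((a : ℝ) + 1) ≤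
      2 * 2 ^ b * (1 / (((β + 2 ^ b * a : ℕ) : ℝ) + 1)) := by
    intro a
    rw [mul_one_div, div_le_div_iff₀ (by positivity) (by positivity)]
    have h2 : (((β + 2 ^ b * a : ℕ) : ℝ) + 1) ≤ 2 ^ b * ((a : ℝ) + 1) := by
      have h3 : β + 2 ^ b * a + 1 ≤ 2 ^ b * (a + 1) := by
        rw [mul_add, mul_one]
        omega
      exact_mod_cast h3
    linarith
  refine (sum_le_sum fun a _ => h1 a).trans ?_
  rw [← mul_sum]
  refine mul_le_mul_of_nonneg_left ?_ (by positivity)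
  have hinj : Set.InjOn (fun a : ℕ => β + 2 ^ b * a) Set.univ := by
    intro a _ a' _ h
    simp only at h
    have h2 : 2 ^ b * a = 2 ^ b * a' := by omega
    exact Nat.eq_of_mul_eq_mul_left hP h2
  rw [← sum_image (f := fun n : ℕ => 1 / ((n : ℝ) + 1)) (g := fun a : ℕ => β + 2 ^ b * a)
    (hinj.mono (Set.subset_univ _))]
  refine sum_le_sum_of_subset_of_nonneg ?_ fun n _ _ => by positivity
  intro n hn
  rw [mem_image] at hn
  obtain ⟨a, ha, rfl⟩ := hn
  rw [mem_filter, mem_range] at ha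
  obtain ⟨h2, h3, h4⟩ := ha
  rw [mem_filter, mem_range]
  refine ⟨?_, ?_, ?_⟩
  · rw [add_comm J b, pow_add]
    calc β + 2 ^ b * a < 2 ^ b * (a + 1) := by
          rw [mul_add, mul_one]
          omega
      _ ≤ 2 ^ b * 2 ^ J := Nat.mul_le_mul_left _ h2
  · have g1 : β + 2 ^ b * a ≡ ρ [MOD 2 ^ b'] := by
      have : β + 2 ^ b * a ≡ ρ [MOD 2 ^ b] := by
        change (β + 2 ^ b * a) % 2 ^ b = ρ % 2 ^ b
        rw [Nat.add_mul_mod_self_left, hβ, Nat.mod_mod]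
      exact this.of_dvd (pow_dvd_pow 2 hb)
    have g2 : β + 2 ^ b * a ≡ ρ [MOD m] := h3
    have hcop : Nat.Coprime (2 ^ b') m := Nat.Coprime.pow_left _ (Nat.coprime_two_left.2 hm)
    rw [hM]
    exact (Nat.modEq_and_modEq_iff_modEq_mul hcop).1 ⟨g1, g2⟩
  · have h5 := coeff_node P2 b β t a 1 hβlt
    rw [one_mul] at h5
    rw [h5, ← node_mod]
    exact h4

/-- **D6** -/
theorem d6 (h5 : S_D5) (hA : S_A) : S_D6 := by
  classical
  intro M hM
  obtain ⟨b', m, hm, hMm⟩ := Nat.exists_eq_two_pow_mul_odd hM.ne'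
  obtain ⟨X, c5, hc5, h5⟩ := h5 m hm.pos
  set b : ℕ := b' + 1 with hb
  have hP : 0 < 2 ^ b := by positivity
  have h2b : 2 ∣ 2 ^ b := dvd_pow_self 2 (by omega)
  obtain ⟨A5, hA5, h5⟩ := h5 (5 * 4 ^ b)
  refine ⟨c5 / (4 * 2 ^ b), by positivity, ?_⟩
  intro ρ
  set β : ℕ := ρ % 2 ^ b with hβ
  have hβlt : β < 2 ^ b := Nat.mod_lt _ hP
  refine ⟨2 * A5 + (2 * (b + X) : ℕ) + 1, by positivity, ?_⟩
  intro w K N hK hKN
  have hKr : (1 : ℝ) ≤ K := by exact_mod_cast hK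
  rcases Nat.lt_or_ge K (2 * (b + X)) with hsmall | hbig
  · have h1 : (#{t ∈ range (2 ^ N) | t % 2 = 1 ∧
        ∑ n ∈ range (2 ^ K) with n % M = ρ % M ∧ coeff n (P2 ^ t) ≠ w n, 1 / ((n : ℝ) + 1) <
          c5 / (4 * 2 ^ b) * K} : ℝ) ≤ 2 ^ N := by
      have := card_filter_le (range (2 ^ N)) (fun t => t % 2 = 1 ∧
        ∑ n ∈ range (2 ^ K) with n % M = ρ % M ∧ coeff n (P2 ^ t) ≠ w n, 1 / ((n : ℝ) + 1) <
          c5 / (4 * 2 ^ b) * K)
      rw [card_range] at this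
      exact_mod_cast this
    refine h1.trans ?_
    have h2 : (1 : ℝ) ≤ (2 * A5 + (2 * (b + X) : ℕ) + 1) * (K : ℝ) ^ (-(1 / 4) : ℝ) := by
      rw [Real.rpow_neg (by positivity), ← div_eq_mul_inv, le_div_iff₀ (by positivity), one_mul]
      have h3 : (K : ℝ) ^ (1 / 4 : ℝ) ≤ (K : ℝ) ^ (1 : ℝ) :=
        Real.rpow_le_rpow_of_exponent_le hKr (by norm_num)
      rw [Real.rpow_one] at h3
      have h4 : (K : ℝ) ≤ (2 * (b + X) : ℕ) := by exact_mod_cast hsmall.le
      linarith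
    have h3 : (0 : ℝ) < 2 ^ N := by positivity
    nlinarith
  · set K' : ℕ := K - b - X with hK'
    have hKK : K ≤ 2 * K' := by omega
    have hK1 : 1 ≤ K' := by omega
    have hKX : K' + X + b = K := by omega
    have hbN : b ≤ N := by omega
    have hNb : 2 ^ N = 2 ^ b * 2 ^ (N - b) := by
      rw [← pow_add]
      congr 1
      omega
    have hKKr : (K : ℝ) ≤ 2 * K' := by exact_mod_cast hKK
    have hcl : ∀ t₀, t₀ % 2 = 1 → t₀ < 2 ^ b → (#{t ∈ range (2 ^ N) | t % 2 ^ b = t₀ ∧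
        ∑ n ∈ range (2 ^ K) with n % M = ρ % M ∧ coeff n (P2 ^ t) ≠ w n, 1 / ((n : ℝ) + 1) <
          c5 / (4 * 2 ^ b) * K} : ℝ) ≤ A5 * (K' : ℝ) ^ (-(1 / 4) : ℝ) * 2 ^ (N - b) := by
      intro t₀ h1 h2
      have h6 := h5 (node P2 b β t₀ 1) (fun a => w (β + 2 ^ b * a))
        (fun a => (β + 2 ^ b * a) % m = ρ % m) (hA b β t₀ hβlt h1) (Dn_odd hm b β ρ) K' (N - b) hK1
        (by omega)
      refine le_trans ?_ h6
      have hcard : #{t ∈ range (2 ^ N) | t % 2 ^ b = t₀ ∧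
          ∑ n ∈ range (2 ^ K) with n % M = ρ % M ∧ coeff n (P2 ^ t) ≠ w n, 1 / ((n : ℝ) + 1) <
            c5 / (4 * 2 ^ b) * K} ≤
          #{t ∈ range (2 ^ (N - b)) | ∑ k ∈ range K', (N1 P2 (2 ^ (k + X)) (node P2 b β t₀ 1,
            (fun a => w (β + 2 ^ b * a)), fun a => (β + 2 ^ b * a) % m = ρ % m) t : ℝ) /
              2 ^ (k + X) < c5 * K'} := by
        refine card_le_card_of_injOn (fun t => t / 2 ^ b) ?_ ?_
        · intro t ht
          obtain ⟨htN, ht0, h3⟩ := mem_filter.1 (mem_coe.1 ht)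
          rw [mem_range, hNb] at htN
          rw [mem_coe, mem_filter, mem_range]
          refine ⟨Nat.div_lt_of_lt_mul htN, ?_⟩
          have h7 := sum_N1 P2 X K' (node P2 b β t₀ 1, (fun a => w (β + 2 ^ b * a)),
            fun a => (β + 2 ^ b * a) % m = ρ % m) (t / 2 ^ b)
          have h8 := cls_sum (ρ := ρ) hMm hm (show b' ≤ b by omega) w t (K' + X)
          rw [← hβ, ht0, hKX] at h8
          have h9 : (0 : ℝ) < 2 * 2 ^ b := by positivity
          calc _ ≤ _ := h7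
            _ ≤ 2 * 2 ^ b * ∑ n ∈ range (2 ^ K) with n % M = ρ % M ∧ coeff n (P2 ^ t) ≠ w n,
                1 / ((n : ℝ) + 1) := by
                refine le_trans (le_of_eq ?_) (h8.trans (le_of_eq ?_))
                · refine sum_congr ?_ fun _ _ => rfl
                  ext n
                  simp only [mem_filter]
                · refine congrArg _ (sum_congr ?_ fun _ _ => rfl)
                  ext n
                  simp only [mem_filter]
            _ < 2 * 2 ^ b * (c5 / (4 * 2 ^ b) * K) := mul_lt_mul_of_pos_left h3 h9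
            _ = c5 * (K / 2) := by
                field_simp
                ring
            _ ≤ c5 * K' := by
                refine mul_le_mul_of_nonneg_left ?_ hc5.le
                linarith
        · intro t1 h1 t2 h2 h
          have h1' := (mem_filter.1 (mem_coe.1 h1)).2.1
          have h2' := (mem_filter.1 (mem_coe.1 h2)).2.1
          simp only at h
          rw [← Nat.mod_add_div t1 (2 ^ b), ← Nat.mod_add_div t2 (2 ^ b), h, h1', h2']
      exact_mod_cast hcard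
    have hsub : {t ∈ range (2 ^ N) | t % 2 = 1 ∧
        ∑ n ∈ range (2 ^ K) with n % M = ρ % M ∧ coeff n (P2 ^ t) ≠ w n, 1 / ((n : ℝ) + 1) <
          c5 / (4 * 2 ^ b) * K} ⊆
        ({t₀ ∈ range (2 ^ b) | t₀ % 2 = 1}).biUnion fun t₀ => {t ∈ range (2 ^ N) | t % 2 ^ b = t₀ ∧
          ∑ n ∈ range (2 ^ K) with n % M = ρ % M ∧ coeff n (P2 ^ t) ≠ w n, 1 / ((n : ℝ) + 1) <
            c5 / (4 * 2 ^ b) * K} := by
      intro t ht
      obtain ⟨h1, h2, h3⟩ := mem_filter.1 ht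
      rw [mem_biUnion]
      refine ⟨t % 2 ^ b, ?_, ?_⟩
      · rw [mem_filter, mem_range]
        refine ⟨Nat.mod_lt _ hP, ?_⟩
        rw [Nat.mod_mod_of_dvd _ h2b]
        exact h2
      · rw [mem_filter]
        exact ⟨h1, rfl, h3⟩
    have h1 := (card_le_card hsub).trans card_biUnion_le
    have hK4 : (K' : ℝ) ^ (-(1 / 4) : ℝ) ≤ 2 * (K : ℝ) ^ (-(1 / 4) : ℝ) := by
      have hK'p : (0 : ℝ) < K' := by exact_mod_cast hK1
      have hKp : (0 : ℝ) < K := by linarith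
      have g1 : (K' : ℝ) ^ (-(1 / 4) : ℝ) ≤ ((K : ℝ) / 2) ^ (-(1 / 4) : ℝ) :=
        Real.rpow_le_rpow_of_nonpos (by positivity) (by linarith) (by norm_num)
      have g2 : ((K : ℝ) / 2) ^ (-(1 / 4) : ℝ) =
          (K : ℝ) ^ (-(1 / 4) : ℝ) * (2 : ℝ) ^ (1 / 4 : ℝ) := by
        rw [Real.div_rpow hKp.le (by norm_num), Real.rpow_neg (by norm_num : (0 : ℝ) ≤ 2),
          div_inv_eq_mul]
      have g3 : (2 : ℝ) ^ (1 / 4 : ℝ) ≤ (2 : ℝ) ^ (1 : ℝ) :=
        Real.rpow_le_rpow_of_exponent_le (by norm_num) (by norm_num)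
      rw [Real.rpow_one] at g3
      have g4 : (0 : ℝ) < (K : ℝ) ^ (-(1 / 4) : ℝ) := by positivity
      rw [g2] at g1
      nlinarith
    calc (#{t ∈ range (2 ^ N) | t % 2 = 1 ∧
        ∑ n ∈ range (2 ^ K) with n % M = ρ % M ∧ coeff n (P2 ^ t) ≠ w n, 1 / ((n : ℝ) + 1) <
          c5 / (4 * 2 ^ b) * K} : ℝ) ≤
        ((∑ t₀ ∈ range (2 ^ b) with t₀ % 2 = 1, #{t ∈ range (2 ^ N) | t % 2 ^ b = t₀ ∧
          ∑ n ∈ range (2 ^ K) with n % M = ρ % M ∧ coeff n (P2 ^ t) ≠ w n, 1 / ((n : ℝ) + 1) <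
            c5 / (4 * 2 ^ b) * K} : ℕ) : ℝ) := by exact_mod_cast h1
      _ = ∑ t₀ ∈ range (2 ^ b) with t₀ % 2 = 1, (#{t ∈ range (2 ^ N) | t % 2 ^ b = t₀ ∧
          ∑ n ∈ range (2 ^ K) with n % M = ρ % M ∧ coeff n (P2 ^ t) ≠ w n, 1 / ((n : ℝ) + 1) <
            c5 / (4 * 2 ^ b) * K} : ℝ) := by
          push_cast
          rfl
      _ ≤ ∑ t₀ ∈ range (2 ^ b) with t₀ % 2 = 1,
          A5 * (K' : ℝ) ^ (-(1 / 4) : ℝ) * 2 ^ (N - b) := by
          refine sum_le_sum fun t₀ ht => ?_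
          rw [mem_filter, mem_range] at ht
          exact hcl t₀ ht.2 ht.1
      _ ≤ ∑ t₀ ∈ range (2 ^ b), A5 * (K' : ℝ) ^ (-(1 / 4) : ℝ) * 2 ^ (N - b) := by
          refine sum_le_sum_of_subset_of_nonneg (filter_subset _ _) fun t₀ _ _ => ?_
          positivity
      _ = A5 * (K' : ℝ) ^ (-(1 / 4) : ℝ) * 2 ^ N := by
          rw [sum_const, card_range, nsmul_eq_mul]
          push_cast
          have h7 : (2 : ℝ) ^ N = 2 ^ b * 2 ^ (N - b) := by exact_mod_cast hNb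
          rw [h7]
          ring
      _ ≤ A5 * (2 * (K : ℝ) ^ (-(1 / 4) : ℝ)) * 2 ^ N := by gcongr
      _ ≤ (2 * A5 + (2 * (b + X) : ℕ) + 1) * (K : ℝ) ^ (-(1 / 4) : ℝ) * 2 ^ N := by
          have g4 : (0 : ℝ) < (K : ℝ) ^ (-(1 / 4) : ℝ) := by positivity
          have g5 : (0 : ℝ) ≤ ((2 * (b + X) : ℕ) : ℝ) := by positivity
          refine mul_le_mul_of_nonneg_right ?_ (by positivity)
          nlinarith

end Pool.Agent.H627.PPD6
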